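import Pool.Agent.HAR.Stmts

/-!
Row PRB of squad HAR: elementary properties of `pr`.
-/

set_option autoImplicit false

namespace Pool.Agent.HAR.H46

open Finset

theorem prb : PrbStmt := by
  classical
  refine ⟨?_, ?_, ?_, ?_, ?_, ?_⟩
  · intro Ω _ E F h
    unfold pr
    apply div_le_div_of_nonneg_right _ (Nat.cast_nonneg _)
    have h1 : Nat.card {ω // E ω} ≤ Nat.card {ω // F ω} :=
      Nat.card_le_card_of_injective (Subtype.map id h) (Subtype.map_injective h Function.injective_id)
    exact_mod_cast h1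
  · intro Ω _ E F
    unfold pr
    rw [← add_div]
    apply div_le_div_of_nonneg_right _ (Nat.cast_nonneg _)
    have h1 : Nat.card {ω // E ω ∨ F ω} ≤ Nat.card ({ω // E ω} ⊕ {ω // F ω}) := by
      apply Nat.card_le_card_of_injective (fun x => if h : E x.1 then Sum.inl ⟨x.1, h⟩
        else Sum.inr ⟨x.1, x.2.resolve_left h⟩)
      rintro ⟨x, hx⟩ ⟨y, hy⟩ hxy
      dsimp only at hxy
      split_ifs at hxy with h1 h2 h2
      · have := Sum.inl.inj hxy
        simpa using this
      · have := Sum.inr.inj hxy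
        simpa using this
    rw [Nat.card_sum] at h1
    exact_mod_cast h1
  · intro Ω X _ _ E p h
    cases nonempty_fintype X
    have h1 : Nat.card {ω // ∃ a, E a ω} ≤ Nat.card (Σ a, {ω // E a ω}) := by
      apply Nat.card_le_card_of_injective (fun x => ⟨x.2.choose, ⟨x.1, x.2.choose_spec⟩⟩)
      rintro ⟨x, hx⟩ ⟨y, hy⟩ hxy
      dsimp only at hxy
      have h3 := congrArg (fun z : (Σ a, {ω // E a ω}) => z.2.1) hxy
      exact Subtype.ext h3
    rw [Nat.card_sigma] at h1
    have h2 : ((Nat.card {ω // ∃ a, E a ω} : ℕ) : ℝ) ≤ ∑ a, ((Nat.card {ω // E a ω} : ℕ) : ℝ) := by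
      exact_mod_cast h1
    calc pr (fun ω => ∃ a, E a ω)
        ≤ (∑ a, ((Nat.card {ω // E a ω} : ℕ) : ℝ)) / Nat.card Ω :=
          div_le_div_of_nonneg_right h2 (Nat.cast_nonneg _)
      _ = ∑ a, pr (E a) := by rw [sum_div]; rfl
      _ ≤ ∑ _a : X, p := sum_le_sum fun a _ => h a
      _ = Nat.card X * p := by
          rw [sum_const, card_univ, nsmul_eq_mul, Nat.card_eq_fintype_card]
  · intro Ω Ω' e E
    unfold pr
    have h1 : Nat.card {ω // E (e ω)} = Nat.card {ω' // E ω'} :=
      Nat.card_congr (e.subtypeEquiv fun _ => Iff.rfl)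
    rw [h1, Nat.card_congr e]
  · intro Ω _ E
    unfold pr
    refine ⟨by positivity, ?_⟩
    apply div_le_one_of_le₀ _ (Nat.cast_nonneg _)
    have h1 : Nat.card {ω // E ω} ≤ Nat.card Ω :=
      Nat.card_le_card_of_injective Subtype.val Subtype.val_injective
    exact_mod_cast h1
  · intro Ω _ E h hne
    by_contra hcon
    push Not at hcon
    have h1 : Nat.card {ω // E ω} = Nat.card Ω :=
      Nat.card_congr (Equiv.subtypeUnivEquiv hcon)
    have h2 : 0 < Nat.card Ω := Nat.card_pos
    have h3 : (0:ℝ) < Nat.card Ω := by exact_mod_cast h2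
    unfold pr at h
    rw [h1, div_self h3.ne'] at h
    exact lt_irrefl _ h

end Pool.Agent.HAR.H46
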